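import Pool.Agent.Lib.MP_531408_nt.Stab

set_option autoImplicit false

/-!
Descent for pairs (a Drinfeld module of rank two, a line in its torsion) over a Galois extension
whose isomorphism class is fixed by the Galois group: the pair has a twist given by data over the
ground field.
-/

namespace Pool.Agent.DrTw

open Polynomial Pool.Agent.DrY

/-- Galois descent of linear relations between functions that are equivariant up to a common
scalar. -/
lemma galois_relation_tw {F E ι S : Type*} [Field F] [Field E] [Algebra F E] [IsGalois F E]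
    [Fintype ι] (act : (E ≃ₐ[F] E) → S → S) (hact : ∀ σ, Function.Surjective (act σ))
    (κ : (E ≃ₐ[F] E) → E)
    (v : ι → S → E) (hv : ∀ σ i s, κ σ * σ (v i s) = v i (act σ s))
    (hex : ∃ a : ι → E, a ≠ 0 ∧ ∀ s, ∑ i, a i * v i s = 0) :
    ∃ b : ι → F, b ≠ 0 ∧ ∀ s, ∑ i, algebraMap F E (b i) * v i s = 0 := by
  classical
  let N : (ι → E) → ℕ := fun a => (Finset.univ.filter fun i => a i ≠ 0).card
  obtain ⟨a, ⟨ha0, hrel⟩, hmin⟩ :=
    (measure N).wf.has_min {a : ι → E | a ≠ 0 ∧ ∀ s, ∑ i, a i * v i s = 0} hex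
  obtain ⟨i0, hi0⟩ := Function.ne_iff.mp ha0
  have hi0' : a i0 ≠ 0 := hi0
  let a' : ι → E := fun i => (a i0)⁻¹ * a i
  have ha'rel : ∀ s, ∑ i, a' i * v i s = 0 := by
    intro s
    have : ∑ i, a' i * v i s = (a i0)⁻¹ * ∑ i, a i * v i s := by
      rw [Finset.mul_sum]
      exact Finset.sum_congr rfl fun i _ => by simp only [a']; ring
    rw [this, hrel, mul_zero]
  have ha'1 : a' i0 = 1 := inv_mul_cancel₀ hi0'
  have hfix : ∀ (σ : E ≃ₐ[F] E) (i : ι), σ (a' i) = a' i := by
    intro σ
    by_contra hcon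
    push Not at hcon
    obtain ⟨i1, hi1⟩ := hcon
    let c : ι → E := fun i => σ (a' i) - a' i
    have hc0 : c ≠ 0 := by
      intro h
      have := congrFun h i1
      exact hi1 (sub_eq_zero.mp this)
    have hcrel : ∀ s, ∑ i, c i * v i s = 0 := by
      intro s
      obtain ⟨s', rfl⟩ := hact σ s
      have h1 : ∑ i, σ (a' i) * v i (act σ s') = 0 := by
        have h2 := congrArg (fun z => κ σ * σ z) (ha'rel s')
        simp only [map_sum, map_zero, mul_zero, map_mul, Finset.mul_sum] at h2
        rw [← h2]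
        exact Finset.sum_congr rfl fun i _ => by rw [← hv]; ring
      have : ∑ i, c i * v i (act σ s') =
          ∑ i, σ (a' i) * v i (act σ s') - ∑ i, a' i * v i (act σ s') := by
        rw [← Finset.sum_sub_distrib]
        exact Finset.sum_congr rfl fun i _ => by simp only [c]; ring
      rw [this, h1, ha'rel, sub_zero]
    apply hmin c ⟨hc0, hcrel⟩
    show N c < N a
    apply Finset.card_lt_card
    constructor
    · intro i hi
      rw [Finset.mem_filter] at hi ⊢
      refine ⟨hi.1, ?_⟩
      intro h0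
      apply hi.2
      simp only [c, a', h0, mul_zero, map_zero, sub_zero]
    · intro hsub
      have h1 : i0 ∈ Finset.univ.filter fun i => a i ≠ 0 := by
        rw [Finset.mem_filter]; exact ⟨Finset.mem_univ _, hi0'⟩
      have h2 := hsub h1
      rw [Finset.mem_filter] at h2
      apply h2.2
      simp only [c, ha'1, map_one, sub_self]
  have hmem : ∀ i, ∃ b : F, algebraMap F E b = a' i := by
    intro i
    exact (InfiniteGalois.mem_range_algebraMap_iff_fixed (a' i)).mpr fun σ => hfix σ i
  choose b hb using hmem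
  refine ⟨b, ?_, ?_⟩
  · intro h
    have h1 := hb i0
    rw [ha'1, h] at h1
    simp at h1
  · intro s
    rw [← ha'rel s]
    exact Finset.sum_congr rfl fun i _ => by rw [hb]

variable {k F E : Type*} [Field k] [Fintype k] [Field F] [Field E] [Algebra k F] [Algebra F E]
  [Algebra k E] [IsScalarTower k F E]

/-- The twisted descent theorem. -/
theorem descent_tw [IsGalois F E] (T : F) (g Δ : E) (hΔ : Δ ≠ 0) (V : Submodule k E) [Finite V]
    (φV : V →ₗ[k] V)
    (hφ : ∀ s : V, ((φV s : V) : E) = algebraMap F E T * s +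
      g * (s : E) ^ (Fintype.card k) + Δ * (s : E) ^ ((Fintype.card k) ^ 2))
    (hσ : ∀ σ : E ≃ₐ[F] E, ∃ c : E, c ≠ 0 ∧ c * σ g = g * c ^ (Fintype.card k) ∧
      c * σ Δ = Δ * c ^ ((Fintype.card k) ^ 2) ∧ ∀ s : E, s ∈ V → c * σ s ∈ V)
    (P : k[X]) (hirr : Irreducible (P.map (algebraMap k F))) (hPV : aeval φV P = 0)
    (hd : Module.finrank k V = P.natDegree) :
    ∃ (g' Δ' : F) (Q : F[X]), Δ' ≠ 0 ∧ P.map (algebraMap k F) ∣ X - C T - C g' * Q -
      C Δ' * (Q.map (FiniteField.frobeniusAlgHom k F : F →+* F)) * Q := by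
  classical
  set q := Fintype.card k with hq
  have hq0 : 0 < q := Fintype.card_pos
  set d := P.natDegree with hddef
  have hdpos : 0 < d := by
    have h := hirr.natDegree_pos
    rwa [natDegree_map] at h
  set ι : V → E := fun s => (s : E) with hι
  let φ : V → V := ⇑φV
  have hι0 : ι ≠ 0 := by
    intro h
    have hbot : ∀ s : V, s = 0 := fun s => Subtype.ext (congrFun h s)
    have : Subsingleton V := ⟨fun a b => by rw [hbot a, hbot b]⟩
    have h0 : Module.finrank k V = 0 := Module.finrank_zero_of_subsingleton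
    omega
  have hPact : act φ ι (P.map (algebraMap k F)) = 0 := by
    funext s
    rw [act_apply' φ ι _ (d + 1) (by rw [natDegree_map]; omega)]
    have h1 := congrArg (fun f : V →ₗ[k] V => ((f s : V) : E)) hPV
    simp only [LinearMap.zero_apply, ZeroMemClass.coe_zero] at h1
    rw [aeval_eq_sum_range, LinearMap.sum_apply] at h1
    rw [Pi.zero_apply, ← h1, AddSubmonoidClass.coe_finsetSum]
    refine Finset.sum_congr rfl fun j _ => ?_
    rw [coeff_map, ← IsScalarTower.algebraMap_apply, LinearMap.smul_apply, Submodule.coe_smul,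
      Algebra.smul_def, Module.End.pow_apply]
  have key := fun B (hB : act φ ι B = 0) => dvd_of_act_eq_zero φ ι hι0 hirr hPact (B := B) hB
  let f : Option (Fin d) → (V →ₗ[k] E) := fun o => match o with
    | some j => V.subtype ∘ₗ (φV ^ (j : ℕ))
    | none => (FiniteField.frobeniusAlgHom k E).toLinearMap ∘ₗ V.subtype
  have fsome : ∀ (j : Fin d) (s : V), f (some j) s = ι (φ^[j] s) := by
    intro j s
    show ((φV ^ (j : ℕ)) s : E) = _
    rw [Module.End.pow_apply]
  have fnone : ∀ s : V, f none s = (s : E) ^ q := fun s => rfl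
  have hdep : ∃ a : Option (Fin d) → E, a ≠ 0 ∧ ∀ s, ∑ i, a i * f i s = 0 := by
    let b := Module.finBasis k V
    let w : Option (Fin d) → (Fin (Module.finrank k V) → E) := fun i j => f i (b j)
    have hnot : ¬ LinearIndependent E w := by
      intro h
      have h1 := h.fintype_card_le_finrank
      rw [Module.finrank_fin_fun, Fintype.card_option, Fintype.card_fin, hd] at h1
      omega
    obtain ⟨a, ha, i, hi⟩ := Fintype.not_linearIndependent_iff.mp hnot
    refine ⟨a, fun h => hi (congrFun h i), ?_⟩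
    let Λ : V →ₗ[k] E := ∑ i, (LinearMap.mulLeft k (a i)) ∘ₗ f i
    have hΛ : Λ = 0 := by
      apply b.ext
      intro j
      have := congrFun ha j
      rw [Finset.sum_apply] at this
      simp only [Λ, LinearMap.sum_apply, LinearMap.comp_apply, LinearMap.mulLeft_apply,
        LinearMap.zero_apply]
      exact this
    intro s
    have := congrArg (fun g : V →ₗ[k] E => g s) hΛ
    simpa only [Λ, LinearMap.sum_apply, LinearMap.comp_apply, LinearMap.mulLeft_apply,
        LinearMap.zero_apply] using this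
  -- the twisted action
  choose c hc0 hcg hcΔ hcV using hσ
  let actG : (E ≃ₐ[F] E) → V → V := fun σ s => ⟨c σ * σ s, hcV σ s s.2⟩
  have hactG : ∀ σ, Function.Surjective (actG σ) := by
    intro σ
    apply Finite.surjective_of_injective
    intro s s' h
    have h1 : c σ * σ (s : E) = c σ * σ (s' : E) := congrArg (fun z : V => (z : E)) h
    exact Subtype.ext (σ.injective (mul_left_cancel₀ (hc0 σ) h1))
  have hcomm : ∀ σ (s : V), φ (actG σ s) = actG σ (φ s) := by
    intro σ s
    apply Subtype.ext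
    show ((φV (actG σ s) : V) : E) = c σ * σ ((φV s : V) : E)
    rw [hφ, hφ, map_add, map_add, map_mul, map_mul, map_mul, map_pow, map_pow, σ.commutes]
    show algebraMap F E T * (c σ * σ (s : E)) + g * (c σ * σ (s : E)) ^ q +
      Δ * (c σ * σ (s : E)) ^ (q ^ 2) = _
    rw [mul_pow, mul_pow]
    linear_combination (-(σ (s : E)) ^ q) * hcg σ - (σ (s : E)) ^ (q ^ 2) * hcΔ σ
  have hcommj : ∀ σ (j : ℕ) (s : V), φ^[j] (actG σ s) = actG σ (φ^[j] s) := by
    intro σ j
    induction j with
    | zero => intro s; rfl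
    | succ j ih => intro s; rw [Function.iterate_succ_apply, hcomm, ih,
        Function.iterate_succ_apply]
  -- polynomial from coefficients
  have hpoly : ∀ (c : Fin d → F), ∃ Q : F[X], Q.natDegree < d ∧ (∀ j : Fin d, Q.coeff j = c j) ∧
      ∀ s, act φ ι Q s = ∑ j : Fin d, algebraMap F E (c j) * ι (φ^[j] s) := by
    intro c
    let Q : F[X] := ∑ j : Fin d, C (c j) * X ^ (j : ℕ)
    have hdeg : Q.natDegree < d := by
      have h1 : Q.natDegree ≤ d - 1 := by
        apply natDegree_sum_le_of_forall_le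
        intro j _
        exact (natDegree_C_mul_X_pow_le _ _).trans (by have := j.2; omega)
      omega
    have hcoeff : ∀ j : Fin d, Q.coeff j = c j := by
      intro j
      simp only [Q, finsetSum_coeff, coeff_C_mul, coeff_X_pow]
      rw [Finset.sum_eq_single j]
      · simp
      · intro i _ hij
        rw [if_neg (fun h => hij (Fin.ext h.symm)), mul_zero]
      · intro h; exact absurd (Finset.mem_univ _) h
    refine ⟨Q, hdeg, hcoeff, fun s => ?_⟩
    rw [act_apply' φ ι Q d hdeg, Finset.sum_range]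
    exact Finset.sum_congr rfl fun j _ => by rw [hcoeff]
  -- independence of the iterates over `E`
  have hind : ∀ a : Fin d → E, (∀ s, ∑ j, a j * ι (φ^[(j : ℕ)] s) = 0) → a = 0 := by
    intro a ha
    by_contra hne
    obtain ⟨b, hb0, hb⟩ := galois_relation_tw actG hactG c
      (fun (j : Fin d) (s : V) => ι (φ^[(j : ℕ)] s)) (by
        intro σ j s
        rw [hcommj]) ⟨a, hne, ha⟩
    obtain ⟨Q, hQd, hQc, hQact⟩ := hpoly b
    have h1 : act φ ι Q = 0 := by
      funext s
      rw [hQact, Pi.zero_apply]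
      exact hb s
    have h2 := key Q h1
    have h3 : Q = 0 := by
      apply eq_zero_of_dvd_of_natDegree_lt h2
      rw [natDegree_map]; exact hQd
    apply hb0
    funext j
    rw [← hQc j, h3, coeff_zero]; rfl
  obtain ⟨a, ha0, ha⟩ := hdep
  have hanone : a none ≠ 0 := by
    intro h0
    have h1 : (fun j : Fin d => a (some j)) = 0 := by
      apply hind
      intro s
      have h2 := ha s
      rw [Fintype.sum_option, h0, zero_mul, zero_add] at h2
      rw [← h2]
      exact Finset.sum_congr rfl fun j _ => by rw [fsome]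
    apply ha0
    funext i
    cases i with
    | none => exact h0
    | some j => exact congrFun h1 j
  -- the coefficients of the power map
  let Qc : Fin d → E := fun j => - a (some j) / a none
  have hQc : ∀ s : V, ∑ j : Fin d, Qc j * ι (φ^[(j : ℕ)] s) = (s : E) ^ q := by
    intro s
    have h2 := ha s
    rw [Fintype.sum_option, fnone] at h2
    apply mul_left_cancel₀ hanone
    rw [Finset.mul_sum]
    have h3 : ∑ j : Fin d, a none * (Qc j * ι (φ^[(j : ℕ)] s)) =
        - ∑ j : Fin d, a (some j) * f (some j) s := by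
      rw [← Finset.sum_neg_distrib]
      refine Finset.sum_congr rfl fun j _ => ?_
      rw [fsome]
      simp only [Qc]
      field_simp
    rw [h3]
    linear_combination -h2
  have hQσ : ∀ σ (j : Fin d), c σ ^ q * σ (Qc j) = c σ * Qc j := by
    intro σ
    have h1 : (fun j : Fin d => c σ ^ q * σ (Qc j) - c σ * Qc j) = 0 := by
      apply hind
      intro s
      obtain ⟨s', rfl⟩ := hactG σ s
      have h2 := congrArg (fun z => c σ ^ q * (c σ * σ z)) (hQc s')
      simp only [map_sum, map_mul, map_pow, Finset.mul_sum] at h2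
      have h3 := hQc (actG σ s')
      have h4 : ∀ j : Fin d, ι (φ^[(j : ℕ)] (actG σ s')) = c σ * σ (ι (φ^[(j : ℕ)] s')) := by
        intro j
        rw [hcommj]
      have h5 : ((actG σ s' : V) : E) = c σ * σ (s' : E) := rfl
      rw [h5, mul_pow] at h3
      have h6 : ∑ j : Fin d, (c σ ^ q * σ (Qc j) - c σ * Qc j) * ι (φ^[(j : ℕ)] (actG σ s')) =
          ∑ j : Fin d, c σ ^ q * (c σ * (σ (Qc j) * σ (ι (φ^[(j : ℕ)] s')))) -
          c σ * ∑ j : Fin d, Qc j * ι (φ^[(j : ℕ)] (actG σ s')) := by
        rw [Finset.mul_sum, ← Finset.sum_sub_distrib]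
        refine Finset.sum_congr rfl fun j _ => ?_
        rw [h4]
        ring
      rw [h6, h2, h3]
      ring
    intro j
    exact sub_eq_zero.mp (congrFun h1 j)
  -- a nonzero coefficient
  have hex : ∃ j0, Qc j0 ≠ 0 := by
    by_contra hno
    push Not at hno
    apply hι0
    funext s
    have h1 := hQc s
    have h2 : ∑ j : Fin d, Qc j * ι (φ^[(j : ℕ)] s) = 0 :=
      Finset.sum_eq_zero fun j _ => by rw [hno j, zero_mul]
    rw [h2] at h1
    exact pow_eq_zero_iff (by omega) |>.mp h1.symm
  obtain ⟨j0, hj0⟩ := hex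
  set w := Qc j0 with hw
  have hwσ : ∀ σ, c σ ^ q * σ w = c σ * w := fun σ => hQσ σ j0
  have hσw : ∀ σ : E ≃ₐ[F] E, σ w ≠ 0 := fun σ => (_root_.map_ne_zero _).mpr hj0
  have hcq0 : ∀ σ, c σ ^ q ≠ 0 := fun σ => pow_ne_zero _ (hc0 σ)
  -- the twisted coefficients lie in the ground field
  have hmem : ∀ z : E, (∀ σ : E ≃ₐ[F] E, σ z = z) → ∃ b : F, algebraMap F E b = z := fun z hz =>
    (InfiniteGalois.mem_range_algebraMap_iff_fixed z).mpr fun σ => hz σ
  have hR : ∀ j : Fin d, ∃ b : F, algebraMap F E b = Qc j / w := by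
    intro j
    apply hmem
    intro σ
    rw [map_div₀, div_eq_div_iff (hσw σ) hj0]
    apply mul_left_cancel₀ (mul_ne_zero (hcq0 σ) (hc0 σ))
    linear_combination (c σ * w) * hQσ σ j - (c σ * Qc j) * hwσ σ
  choose r hr using hR
  obtain ⟨g', hg'⟩ := hmem (g * w) (by
    intro σ
    rw [map_mul]
    apply mul_left_cancel₀ (mul_ne_zero (hcq0 σ) (hc0 σ))
    linear_combination (c σ ^ q * σ w) * hcg σ + (g * c σ ^ q) * hwσ σ)
  have hpowq : ∀ σ, (c σ ^ (q ^ 2)) * (σ w) ^ q = c σ ^ q * w ^ q := by
    intro σ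
    have h1 := congrArg (fun z => z ^ q) (hwσ σ)
    simp only [mul_pow] at h1
    rw [← pow_mul, ← pow_two] at h1
    exact h1
  obtain ⟨Δ', hΔ'⟩ := hmem (Δ * w ^ (q + 1)) (by
    intro σ
    rw [map_mul, map_pow]
    apply mul_left_cancel₀ (mul_ne_zero (hcq0 σ) (hc0 σ))
    rw [pow_succ, pow_succ]
    have h1 := hcΔ σ
    have h2 := hpowq σ
    have h3 := hwσ σ
    linear_combination (c σ ^ q * σ w ^ q * σ w) * h1 + (Δ * c σ ^ q * σ w) * h2 +
      (Δ * c σ ^ q * w ^ q) * h3)
  obtain ⟨Q, hQd, hQcoef, hQact⟩ := hpoly r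
  have hQq : ∀ s : V, w * act φ ι Q s = (s : E) ^ q := by
    intro s
    rw [hQact, ← hQc s, Finset.mul_sum]
    refine Finset.sum_congr rfl fun j _ => ?_
    rw [hr]
    field_simp
  refine ⟨g', Δ', Q, ?_, key _ ?_⟩
  · intro h0
    rw [h0, map_zero] at hΔ'
    exact (mul_ne_zero hΔ (pow_ne_zero _ hj0)) hΔ'.symm
  funext s
  rw [act_sub, act_sub, act_sub, Pi.sub_apply, Pi.sub_apply, Pi.sub_apply, act_X, act_C,
    act_mul, act_C, act_mul, act_mul, act_C, hg', hΔ', Pi.zero_apply]
  have hlast : w ^ (q + 1) * act φ (act φ ι Q) (Q.map (FiniteField.frobeniusAlgHom k F : F →+* F)) s =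
      (s : E) ^ (q ^ 2) := by
    rw [act_apply' φ _ _ d (by rw [natDegree_map]; exact hQd)]
    have h1 : ∀ j ∈ Finset.range d, w * (algebraMap F E
        ((Q.map (FiniteField.frobeniusAlgHom k F : F →+* F)).coeff j) * act φ ι Q (φ^[j] s)) =
        FiniteField.frobeniusAlgHom k E (algebraMap F E (Q.coeff j) * ι (φ^[j] s)) := by
      intro j _
      have h2 := hQq (φ^[j] s)
      rw [coeff_map, map_mul]
      have h3 : FiniteField.frobeniusAlgHom k E (ι (φ^[j] s)) = ((φ^[j] s : V) : E) ^ q := rfl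
      have h4 : algebraMap F E ((FiniteField.frobeniusAlgHom k F : F →+* F) (Q.coeff j)) =
          FiniteField.frobeniusAlgHom k E (algebraMap F E (Q.coeff j)) := by
        show algebraMap F E (Q.coeff j ^ q) = (algebraMap F E (Q.coeff j)) ^ q
        rw [map_pow]
      rw [h3, h4, ← h2]
      ring
    rw [pow_succ, mul_assoc, Finset.mul_sum, Finset.sum_congr rfl h1, ← map_sum,
      ← act_apply' φ ι Q d hQd]
    have h5 : w ^ q * FiniteField.frobeniusAlgHom k E (act φ ι Q s) = (w * act φ ι Q s) ^ q := by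
      rw [mul_pow]
      rfl
    rw [h5, hQq, ← pow_mul, pow_two]
  have e1 : g * w * act φ ι Q s = g * (s : E) ^ q := by rw [mul_assoc, hQq]
  have e2 : Δ * w ^ (q + 1) * act φ (act φ ι Q)
      (Q.map (FiniteField.frobeniusAlgHom k F : F →+* F)) s = Δ * (s : E) ^ (q ^ 2) := by
    rw [mul_assoc, hlast]
  rw [e1, e2]
  show ((φV s : V) : E) - _ - _ - _ = 0
  rw [hφ]
  ring

end Pool.Agent.DrTw
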